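import Pool.Agent.Helper33.KU.Uni

/-!
# KR, pieces D0 and D: the varied function near the circle
-/

set_option autoImplicit false

namespace Pool.Agent.Helper23.KU

open Polynomial Filter Topology Metric MeasureTheory Set

/-- a polynomial is bounded on the disc -/
theorem poly_bdd (p : ℂ[X]) : ∃ M : ℝ, 0 ≤ M ∧ ∀ z : ℂ, ‖z‖ ≤ 1 → ‖p.eval z‖ ≤ M := by
  obtain ⟨M, hM⟩ := (isCompact_closedBall (0 : ℂ) 1).exists_bound_of_continuousOn
    (f := fun z => p.eval z) p.continuous.continuousOn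
  refine ⟨M, (norm_nonneg _).trans (hM 0 (mem_closedBall_self zero_le_one)), fun z hz => ?_⟩
  exact hM z (mem_closedBall_zero_iff.2 hz)

theorem y_bdd {n : ℕ} {p q : ℂ[X]} {I y : ℂ → ℂ} (hI : ∀ z ∈ ball (0 : ℂ) 1, ‖I z‖ ≤ 1)
    (hyd : DifferentiableOn ℂ y (ball 0 1))
    (hy : ∀ z ∈ ball (0 : ℂ) 1, z ^ n * y z = p.eval z * I z - q.eval z) :
    ∃ M : ℝ, ∀ z ∈ ball (0 : ℂ) 1, ‖y z‖ ≤ M := by
  obtain ⟨Mp, hp0, hp⟩ := poly_bdd p
  obtain ⟨Mq, hq0, hq⟩ := poly_bdd q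
  have hsub : closedBall (0 : ℂ) (1 / 2) ⊆ ball 0 1 := closedBall_subset_ball (by norm_num)
  obtain ⟨M1, hM1⟩ := (isCompact_closedBall (0 : ℂ) (1 / 2)).exists_bound_of_continuousOn
    (hyd.continuousOn.mono hsub)
  refine ⟨max M1 (2 ^ n * (Mp + Mq)), fun z hz => ?_⟩
  rcases le_or_gt ‖z‖ (1 / 2) with h | h
  · exact (hM1 z (mem_closedBall_zero_iff.2 h)).trans (le_max_left _ _)
  · refine le_trans ?_ (le_max_right _ _)
    have hz1 : ‖z‖ < 1 := mem_ball_zero_iff.1 hz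
    have h1 := congrArg norm (hy z hz)
    rw [norm_mul, norm_pow] at h1
    have h2 : ‖p.eval z * I z - q.eval z‖ ≤ Mp + Mq := by
      refine (norm_sub_le _ _).trans (add_le_add ?_ (hq z hz1.le))
      rw [norm_mul]
      calc ‖p.eval z‖ * ‖I z‖ ≤ Mp * 1 :=
            mul_le_mul (hp z hz1.le) (hI z hz) (norm_nonneg _) hp0
        _ = Mp := mul_one _
    have h3 : (1 / 2 : ℝ) ^ n ≤ ‖z‖ ^ n := pow_le_pow_left₀ (by norm_num) h.le n
    have h4 : (1 / 2 : ℝ) ^ n * ‖y z‖ ≤ Mp + Mq := by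
      calc (1 / 2 : ℝ) ^ n * ‖y z‖ ≤ ‖z‖ ^ n * ‖y z‖ :=
            mul_le_mul_of_nonneg_right h3 (norm_nonneg _)
        _ = ‖p.eval z * I z - q.eval z‖ := h1
        _ ≤ _ := h2
    calc ‖y z‖ = 2 ^ n * ((1 / 2 : ℝ) ^ n * ‖y z‖) := by
          rw [← mul_assoc, ← mul_pow]
          norm_num
      _ ≤ 2 ^ n * (Mp + Mq) := mul_le_mul_of_nonneg_left h4 (by positivity)

/-- a continuous function which is zero on the circle is small near the circle -/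
theorem small_near {e : ℂ → ℂ} (hc : Continuous e) (h0 : ∀ z : ℂ, ‖z‖ = 1 → e z = 0) {η : ℝ}
    (hη : 0 < η) : ∃ r < 1, ∀ z : ℂ, r ≤ ‖z‖ → ‖z‖ ≤ 1 → ‖e z‖ ≤ η := by
  have hK : IsCompact (closedBall (0 : ℂ) 1 ∩ {z | η ≤ ‖e z‖}) :=
    (isCompact_closedBall (0 : ℂ) 1).inter_right (isClosed_le continuous_const hc.norm)
  by_cases hne : (closedBall (0 : ℂ) 1 ∩ {z | η ≤ ‖e z‖}).Nonempty
  · obtain ⟨b, hb, hmax⟩ := hK.exists_isMaxOn hne continuous_norm.continuousOn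
    have hb1 : ‖b‖ < 1 := by
      rcases (mem_closedBall_zero_iff.1 hb.1).lt_or_eq with h | h
      · exact h
      · exfalso
        have h1 : η ≤ ‖e b‖ := hb.2
        rw [h0 b h, norm_zero] at h1
        linarith
    refine ⟨(1 + ‖b‖) / 2, by linarith, fun z hz hz1 => ?_⟩
    by_contra hlt
    push Not at hlt
    have h2 : ‖z‖ ≤ ‖b‖ := hmax (show z ∈ closedBall (0 : ℂ) 1 ∩ {z | η ≤ ‖e z‖} from
      ⟨mem_closedBall_zero_iff.2 hz1, hlt.le⟩)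
    linarith
  · refine ⟨0, one_pos, fun z _ hz1 => ?_⟩
    by_contra hlt
    push Not at hlt
    exact hne ⟨z, mem_closedBall_zero_iff.2 hz1, hlt.le⟩

/-- `p - z ^ n conj (rv n p)` is small near the circle -/
theorem rv_near {n : ℕ} {p : ℂ[X]} (hp : p.natDegree ≤ n) {η : ℝ} (hη : 0 < η) :
    ∃ r < 1, ∀ z : ℂ, r ≤ ‖z‖ → ‖z‖ ≤ 1 →
      ‖p.eval z - z ^ n * (starRingEnd ℂ) ((rv n p).eval z)‖ ≤ η := by
  refine small_near ?_ ?_ hη
  · exact p.continuous.sub ((continuous_pow n).mul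
      (Complex.continuous_conj.comp (rv n p).continuous))
  · intro z hz
    have h1 : z * (starRingEnd ℂ) z = 1 := by
      rw [Complex.mul_conj, Complex.normSq_eq_norm_sq, hz]
      norm_num
    rw [rv_eval hp hz, map_mul, map_pow, Complex.conj_conj, ← mul_assoc, ← mul_pow, h1, one_pow,
      one_mul, sub_self]

/-- the Schur identity -/
theorem schur_le {α β w : ℂ} (hw : ‖w‖ ≤ 1) (h : ‖β‖ ≤ ‖α‖) :
    ‖α * w - β‖ ≤ ‖(starRingEnd ℂ) α - (starRingEnd ℂ) β * w‖ := by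
  have h1 : ‖(starRingEnd ℂ) α - (starRingEnd ℂ) β * w‖ ^ 2 - ‖α * w - β‖ ^ 2 =
      (‖α‖ ^ 2 - ‖β‖ ^ 2) * (1 - ‖w‖ ^ 2) := by
    rw [← Complex.normSq_eq_norm_sq, ← Complex.normSq_eq_norm_sq, ← Complex.normSq_eq_norm_sq,
      ← Complex.normSq_eq_norm_sq, ← Complex.normSq_eq_norm_sq]
    simp only [Complex.normSq_apply, Complex.sub_re, Complex.sub_im, Complex.mul_re,
      Complex.mul_im, Complex.conj_re, Complex.conj_im]
    ring
  have h2 : 0 ≤ ‖α‖ ^ 2 - ‖β‖ ^ 2 := by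
    have := pow_le_pow_left₀ (norm_nonneg _) h 2
    linarith
  have h3 : 0 ≤ 1 - ‖w‖ ^ 2 := by
    have := pow_le_one₀ (n := 2) (norm_nonneg _) hw
    linarith
  have h4 := mul_nonneg h2 h3
  exact (sq_le_sq₀ (norm_nonneg _) (norm_nonneg _)).1 (by linarith)

theorem near_bdry {n : ℕ} {p q : ℂ[X]} (hp : p.natDegree ≤ n) (hq : q.natDegree ≤ n)
    {I y : ℂ → ℂ} (hI : ∀ z ∈ ball (0 : ℂ) 1, ‖I z‖ ≤ 1)
    (hy : ∀ z ∈ ball (0 : ℂ) 1, z ^ n * y z = p.eval z * I z - q.eval z) {τ : ℂ}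
    (hτ : ∀ z : ℂ, ‖z‖ ≤ 1 → ‖τ‖ * (‖(rv n p).eval z‖ + ‖(rv n q).eval z‖) ≤ 1)
    (hτy : ∀ z ∈ ball (0 : ℂ) 1, ‖τ‖ * ‖y z‖ ≤ 1 / 2) {δ : ℝ} (hδ : 0 < δ) :
    ∃ r < 1, ∀ z : ℂ, r ≤ ‖z‖ → ‖z‖ < 1 →
      ‖I z - τ * ((rv n p).eval z - (rv n q).eval z * I z)‖ ≤
        (1 + δ) * ‖1 - (starRingEnd ℂ) τ * y z‖ := by
  obtain ⟨η, hη, hηδ⟩ : ∃ η : ℝ, 0 < η ∧ 2 * (‖τ‖ * (2 ^ n * (2 * η))) ≤ δ := by
    refine ⟨δ / (4 * (2 ^ n * (‖τ‖ + 1))), by positivity, ?_⟩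
    have h1 : 2 * (‖τ‖ * (2 ^ n * (2 * (δ / (4 * (2 ^ n * (‖τ‖ + 1))))))) =
        δ * (‖τ‖ / (‖τ‖ + 1)) := by
      field_simp
      ring
    have h2 : ‖τ‖ / (‖τ‖ + 1) ≤ 1 := by
      rw [div_le_one (by positivity)]
      linarith
    rw [h1]
    calc δ * (‖τ‖ / (‖τ‖ + 1)) ≤ δ * 1 := mul_le_mul_of_nonneg_left h2 hδ.le
      _ = δ := mul_one _
  obtain ⟨r1, hr1, hp1⟩ := rv_near hp hη
  obtain ⟨r2, hr2, hq2⟩ := rv_near hq hη
  refine ⟨max (max r1 r2) (1 / 2), max_lt (max_lt hr1 hr2) (by norm_num), fun z hz hz1 => ?_⟩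
  have hzr1 : r1 ≤ ‖z‖ := ((le_max_left _ _).trans (le_max_left _ _)).trans hz
  have hzr2 : r2 ≤ ‖z‖ := ((le_max_right _ _).trans (le_max_left _ _)).trans hz
  have hzh : 1 / 2 ≤ ‖z‖ := (le_max_right _ _).trans hz
  have hzb : z ∈ ball (0 : ℂ) 1 := mem_ball_zero_iff.2 hz1
  have hz0 : z ≠ 0 := by
    rw [← norm_pos_iff]; linarith
  set a : ℂ := (rv n p).eval z with ha
  set b : ℂ := (rv n q).eval z with hb
  have hIz := hI z hzb
  -- the error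
  have herr : ‖y z - ((starRingEnd ℂ) a * I z - (starRingEnd ℂ) b)‖ ≤ 2 ^ n * (2 * η) := by
    have h1 : z ^ n * (y z - ((starRingEnd ℂ) a * I z - (starRingEnd ℂ) b)) =
        (p.eval z - z ^ n * (starRingEnd ℂ) a) * I z -
          (q.eval z - z ^ n * (starRingEnd ℂ) b) := by
      rw [mul_sub, hy z hzb]
      ring
    have h2 : ‖z ^ n * (y z - ((starRingEnd ℂ) a * I z - (starRingEnd ℂ) b))‖ ≤ 2 * η := by
      rw [h1]
      refine (norm_sub_le _ _).trans ?_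
      rw [norm_mul]
      have h3 : ‖p.eval z - z ^ n * (starRingEnd ℂ) a‖ * ‖I z‖ ≤ η * 1 :=
        mul_le_mul (hp1 z hzr1 hz1.le) hIz (norm_nonneg _) hη.le
      have h4 := hq2 z hzr2 hz1.le
      linarith
    rw [norm_mul, norm_pow] at h2
    have h3 : (1 / 2 : ℝ) ^ n ≤ ‖z‖ ^ n := pow_le_pow_left₀ (by norm_num) hzh n
    have h4 : (1 / 2 : ℝ) ^ n * ‖y z - ((starRingEnd ℂ) a * I z - (starRingEnd ℂ) b)‖ ≤
        2 * η := (mul_le_mul_of_nonneg_right h3 (norm_nonneg _)).trans h2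
    calc ‖y z - ((starRingEnd ℂ) a * I z - (starRingEnd ℂ) b)‖
        = 2 ^ n * ((1 / 2 : ℝ) ^ n *
          ‖y z - ((starRingEnd ℂ) a * I z - (starRingEnd ℂ) b)‖) := by
          rw [← mul_assoc, ← mul_pow]
          norm_num
      _ ≤ 2 ^ n * (2 * η) := mul_le_mul_of_nonneg_left h4 (by positivity)
  -- the identity
  have hβα : ‖τ * a‖ ≤ ‖1 + τ * b‖ := by
    have h1 := hτ z hz1.le
    rw [mul_add, ← norm_mul, ← norm_mul] at h1
    have h2 : 1 - ‖τ * b‖ ≤ ‖1 + τ * b‖ := by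
      have h3 := norm_sub_norm_le (1 : ℂ) (-(τ * b))
      rw [norm_one, norm_neg, sub_neg_eq_add] at h3
      exact h3
    linarith
  have h5 := schur_le hIz hβα
  have h6 : I z - τ * (a - b * I z) = (1 + τ * b) * I z - τ * a := by ring
  have h7 : (starRingEnd ℂ) (1 + τ * b) - (starRingEnd ℂ) (τ * a) * I z =
      (1 - (starRingEnd ℂ) τ * y z) +
        (starRingEnd ℂ) τ * (y z - ((starRingEnd ℂ) a * I z - (starRingEnd ℂ) b)) := by
    rw [map_add, map_mul, map_mul, map_one]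
    ring
  rw [h6]
  rw [h7] at h5
  have h8 : ‖(starRingEnd ℂ) τ * (y z - ((starRingEnd ℂ) a * I z - (starRingEnd ℂ) b))‖ ≤
      ‖τ‖ * (2 ^ n * (2 * η)) := by
    rw [norm_mul, Complex.norm_conj]
    exact mul_le_mul_of_nonneg_left herr (norm_nonneg _)
  have h9 : 1 / 2 ≤ ‖1 - (starRingEnd ℂ) τ * y z‖ := by
    have h10 := norm_sub_norm_le (1 : ℂ) ((starRingEnd ℂ) τ * y z)
    rw [norm_one, norm_mul, Complex.norm_conj] at h10
    have := hτy z hzb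
    linarith
  have h11 := norm_add_le (1 - (starRingEnd ℂ) τ * y z)
    ((starRingEnd ℂ) τ * (y z - ((starRingEnd ℂ) a * I z - (starRingEnd ℂ) b)))
  have h12 : δ * (1 / 2) ≤ δ * ‖1 - (starRingEnd ℂ) τ * y z‖ :=
    mul_le_mul_of_nonneg_left h9 hδ.le
  have h13 : (1 + δ) * ‖1 - (starRingEnd ℂ) τ * y z‖ =
      ‖1 - (starRingEnd ℂ) τ * y z‖ + δ * ‖1 - (starRingEnd ℂ) τ * y z‖ := by ring
  rw [h13]
  linarith

end Pool.Agent.Helper23.KU
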